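import Mathlib
import Pool.Agent.Q156.SpecGap

/-!
# The spectral gap of generalised pancake graphs is smaller than that of the quotient

For `n = 2` and every `m ≥ 6` the gap between the two largest eigenvalues of the generalised
pancake graph `P_m(2)` is smaller than the gap of the quotient matrix of the equitable partition
by position and colour of one letter. The reason: the real part of a nontrivial character of the
difference of the colours of the two letters is an eigenfunction for the eigenvalue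
`2 + 2 cos (2 π / m)`, since a prefix reversal that moves both letters does not change it.
-/

set_option autoImplicit false

namespace Pool.Agent.Results.MP_ad1e8a_co.GapSmaller

open Matrix Finset

/-- Reversal of the positions `0, …, k`. -/
def revPos {n : ℕ} (k : Fin n) : Equiv.Perm (Fin n) :=
  Function.Involutive.toPerm (fun t => if t ≤ k then ⟨k.1 - t.1, by omega⟩ else t) (by
    intro t
    by_cases h : t ≤ k
    · have h2 : (⟨k.1 - t.1, by omega⟩ : Fin n) ≤ k := by rw [Fin.le_def]; simp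
      simp only [h, if_true, h2]
      ext
      rw [Fin.le_def] at h
      simp only
      omega
    · simp only [h, if_false])

/-- Coloured permutations `(χ, ψ)`: position `t` carries the letter `ψ t` with the colour `χ t`.
Positions and letters are numbered from `0`. -/
abbrev CPerm (m n : ℕ) : Type := (Fin n → ZMod m) × Equiv.Perm (Fin n)

/-- The prefix reversal of the first `k + 1` positions; the colours of the letters in these
positions are changed by `ε`. -/
def prefixRev {m n : ℕ} (k : Fin n) (ε : ZMod m) (x : CPerm m n) : CPerm m n :=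
  (fun t => x.1 (revPos k t) + if t ≤ k then ε else 0, (revPos k).trans x.2)

/-- The generalised pancake graph. -/
def pancake (m n : ℕ) : SimpleGraph (CPerm m n) :=
  SimpleGraph.fromRel fun x y => ∃ (k : Fin n) (ε : ZMod m), (ε = 1 ∨ ε = -1) ∧
    prefixRev k ε x = y

/-- The class of the coloured permutations in which the first letter is in position `a.2` and has
the colour `a.1`. -/
def InClass {m n : ℕ} (a : ZMod m × Fin n) (x : CPerm m n) : Prop :=
  (x.2 a.2).1 = 0 ∧ x.1 a.2 = a.1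

/-- `Q` is the quotient matrix of the partition into the classes: every vertex of class `a` has
exactly `Q a b` neighbours in class `b`. -/
def IsQuotient {m n : ℕ} (Q : Matrix (ZMod m × Fin n) (ZMod m × Fin n) ℝ) : Prop :=
  ∀ a b (x : CPerm m n), InClass a x →
    ({y | (pancake m n).Adj x y ∧ InClass b y} : Set (CPerm m n)).ncard = Q a b

/-- The difference of the two largest eigenvalues (with multiplicity) of a real symmetric matrix;
`eigenvalues₀` lists the eigenvalues in nonincreasing order. -/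
noncomputable def gap {ι : Type} [Fintype ι] [DecidableEq ι] {A : Matrix ι ι ℝ}
    (hA : A.IsHermitian) (h : 1 < Fintype.card ι) : ℝ :=
  hA.eigenvalues₀ ⟨0, by omega⟩ - hA.eigenvalues₀ ⟨1, h⟩

/-! ### The graph for `n = 2` -/

theorem rev0 : (revPos (0 : Fin 2)) = 1 := by decide

theorem rev1 : (revPos (1 : Fin 2)) = Equiv.swap 0 1 := by decide

theorem rev_symm {n : ℕ} (k t : Fin n) : revPos k (revPos k t) = t :=
  (revPos k).symm_apply_apply t

theorem rev_le {n : ℕ} (k t : Fin n) : revPos k t ≤ k ↔ t ≤ k := by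
  by_cases h : t ≤ k
  · have : revPos k t = ⟨k.1 - t.1, by omega⟩ := by
      show (if t ≤ k then (⟨k.1 - t.1, by omega⟩ : Fin n) else t) = _
      rw [if_pos h]
    rw [this, Fin.le_def]
    simp [h]
  · have : revPos k t = t := by
      show (if t ≤ k then (⟨k.1 - t.1, by omega⟩ : Fin n) else t) = _
      rw [if_neg h]
    rw [this]

theorem prefixRev_inv {m n : ℕ} (k : Fin n) (ε : ZMod m) (x : CPerm m n) :
    prefixRev k (-ε) (prefixRev k ε x) = x := by
  unfold prefixRev
  ext t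
  · simp only [rev_symm, rev_le]
    split_ifs <;> simp
  · simp [rev_symm]

theorem snd_rev0 {m : ℕ} (ε : ZMod m) (x : CPerm m 2) : (prefixRev 0 ε x).2 = x.2 := by
  simp only [prefixRev, rev0]
  rfl

theorem snd_rev1 {m : ℕ} (ε : ZMod m) (x : CPerm m 2) :
    (prefixRev 1 ε x).2 = (Equiv.swap 0 1).trans x.2 := by
  simp only [prefixRev, rev1]

theorem fst_rev0_0 {m : ℕ} (ε : ZMod m) (x : CPerm m 2) : (prefixRev 0 ε x).1 0 = x.1 0 + ε := by
  simp [prefixRev, rev0]

theorem fst_rev0_1 {m : ℕ} (ε : ZMod m) (x : CPerm m 2) : (prefixRev 0 ε x).1 1 = x.1 1 := by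
  simp [prefixRev, rev0]

theorem fst_rev1_0 {m : ℕ} (ε : ZMod m) (x : CPerm m 2) : (prefixRev 1 ε x).1 0 = x.1 1 + ε := by
  simp [prefixRev, rev1]

theorem fst_rev1_1 {m : ℕ} (ε : ZMod m) (x : CPerm m 2) : (prefixRev 1 ε x).1 1 = x.1 0 + ε := by
  simp [prefixRev, rev1]

/-- the four neighbours -/
def nb {m : ℕ} (x : CPerm m 2) (i : Fin 2 × Fin 2) : CPerm m 2 :=
  prefixRev i.1 (if i.2 = 0 then 1 else -1) x

theorem two_ne {m : ℕ} (hm : 3 ≤ m) : (1 : ZMod m) ≠ -1 := by
  intro h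
  have h1 : ((2 : ℕ) : ZMod m) = 0 := by
    have : (1 : ZMod m) + 1 = 0 := by nth_rw 1 [h]; ring
    push_cast
    rw [← this]
    ring
  rw [ZMod.natCast_eq_zero_iff] at h1
  have := Nat.le_of_dvd (by norm_num) h1
  omega

theorem perm_ne {m : ℕ} (x : CPerm m 2) : (Equiv.swap 0 1).trans x.2 ≠ x.2 := by
  intro h
  have h1 := congrArg (fun e : Equiv.Perm (Fin 2) => x.2.symm (e 0)) h
  simp at h1

theorem nb_inj {m : ℕ} (hm : 3 ≤ m) (x : CPerm m 2) : Function.Injective (nb x) := by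
  have e1 := two_ne hm
  rintro ⟨k, s⟩ ⟨k', s'⟩ h
  have hk : k = k' := by
    have h2 := congrArg Prod.snd h
    unfold nb at h2
    revert h2
    fin_cases k <;> fin_cases k'
    · intro _; rfl
    · intro h2
      exfalso
      simp only [Fin.zero_eta, Fin.mk_one, snd_rev0, snd_rev1] at h2
      exact perm_ne x h2.symm
    · intro h2
      exfalso
      simp only [Fin.zero_eta, Fin.mk_one, snd_rev0, snd_rev1] at h2
      exact perm_ne x h2
    · intro _; rfl
  subst hk
  have h2 := congrArg (fun y => y.1 0) h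
  unfold nb at h2
  simp only at h2
  have h3 : (if s = 0 then (1 : ZMod m) else -1) = if s' = 0 then 1 else -1 := by
    fin_cases k
    · simp only [Fin.zero_eta, fst_rev0_0] at h2
      exact add_left_cancel h2
    · simp only [Fin.mk_one, fst_rev1_0] at h2
      exact add_left_cancel h2
  have : s = s' := by
    revert h3
    fin_cases s <;> fin_cases s' <;> simp [e1, e1.symm]
  rw [this]

theorem nb_ne {m : ℕ} (hm : 3 ≤ m) (x : CPerm m 2) (i : Fin 2 × Fin 2) : x ≠ nb x i := by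
  obtain ⟨k, s⟩ := i
  intro h
  unfold nb at h
  have hne : (if s = 0 then (1 : ZMod m) else -1) ≠ 0 := by
    have h1 : (1 : ZMod m) ≠ 0 := by
      have : Fact (1 < m) := ⟨by omega⟩
      exact one_ne_zero
    split_ifs
    · exact h1
    · exact neg_ne_zero.2 h1
  fin_cases k
  · have h2 := congrArg (fun y => y.1 0) h
    simp only [Fin.zero_eta, fst_rev0_0] at h2
    exact hne (by simpa using h2.symm)
  · have h2 := congrArg Prod.snd h
    simp only [Fin.mk_one, snd_rev1] at h2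
    exact perm_ne x h2.symm

theorem adj_iff {m : ℕ} (hm : 3 ≤ m) (x y : CPerm m 2) :
    (pancake m 2).Adj x y ↔ ∃ i, nb x i = y := by
  unfold pancake
  rw [SimpleGraph.fromRel_adj]
  constructor
  · rintro ⟨-, ⟨k, ε, h1, h2⟩ | ⟨k, ε, h1, h2⟩⟩
    · rcases h1 with rfl | rfl
      · exact ⟨(k, 0), by simpa [nb] using h2⟩
      · exact ⟨(k, 1), by simpa [nb] using h2⟩
    · have h3 : prefixRev k (-ε) x = y := by rw [← h2, prefixRev_inv]
      rcases h1 with rfl | rfl
      · exact ⟨(k, 1), by simpa [nb] using h3⟩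
      · exact ⟨(k, 0), by simpa [nb] using h3⟩
  · rintro ⟨⟨k, s⟩, rfl⟩
    refine ⟨nb_ne hm x _, Or.inl ⟨k, _, ?_, rfl⟩⟩
    by_cases h : s = 0 <;> simp [h]

section

variable {m : ℕ} [NeZero m]

open Classical in
/-- adjacency matrix applied to a function -/
theorem adj_mulVec (hm : 3 ≤ m) (f : CPerm m 2 → ℝ) (x : CPerm m 2) :
    (((pancake m 2).adjMatrix ℝ) *ᵥ f) x = f (prefixRev 0 1 x) + f (prefixRev 0 (-1) x) +
      (f (prefixRev 1 1 x) + f (prefixRev 1 (-1) x)) := by
  rw [SimpleGraph.adjMatrix_mulVec_apply]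
  have h : (pancake m 2).neighborFinset x = univ.image (nb x) := by
    ext y
    rw [SimpleGraph.mem_neighborFinset, adj_iff hm]
    simp
  rw [h, sum_image (fun a _ b _ hab => nb_inj hm x hab), Fintype.sum_prod_type]
  simp [nb, Fin.sum_univ_two]

/-- the real part of the standard character -/
noncomputable def co (d : ZMod m) : ℝ := (ZMod.stdAddChar d : ℂ).re

theorem re_neg (d : ZMod m) : (ZMod.stdAddChar (-d) : ℂ) = (starRingEnd ℂ) (ZMod.stdAddChar d) := by
  rw [AddChar.map_neg_eq_conj]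

theorem char_sum (d : ZMod m) : (ZMod.stdAddChar d : ℂ) + ZMod.stdAddChar (-d) = 2 * (co d : ℂ) := by
  rw [re_neg, Complex.add_conj]
  push_cast [co]
  ring

theorem co_shift (d : ZMod m) : co (d + 1) + co (d - 1) = 2 * co (1 : ZMod m) * co d := by
  have h : (ZMod.stdAddChar (d + 1) : ℂ) + ZMod.stdAddChar (d - 1) =
      (2 * (co (1 : ZMod m) : ℂ)) * ZMod.stdAddChar d := by
    rw [← char_sum, sub_eq_add_neg, AddChar.map_add_eq_mul, AddChar.map_add_eq_mul]
    ring
  have h2 := congrArg Complex.re h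
  rw [Complex.add_re] at h2
  have h3 : ((2 * (co (1 : ZMod m) : ℂ)) * ZMod.stdAddChar d).re = 2 * co (1 : ZMod m) * co d := by
    rw [show (2 * (co (1 : ZMod m) : ℂ)) = ((2 * co (1 : ZMod m) : ℝ) : ℂ) by push_cast; ring,
      Complex.re_ofReal_mul]
    rfl
  rw [h3] at h2
  exact h2

theorem co_val (d : ZMod m) : co d = Real.cos (2 * Real.pi * (d.val : ℝ) / m) := by
  unfold co
  have h : (ZMod.stdAddChar d : ℂ) = Complex.exp (2 * Real.pi * Complex.I * (d.val : ℤ) / m) := by
    rw [← ZMod.stdAddChar_coe]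
    simp
  rw [h]
  have h2 : (2 * Real.pi * Complex.I * ((d.val : ℤ) : ℂ) / m : ℂ) =
      ((2 * Real.pi * (d.val : ℝ) / m : ℝ) : ℂ) * Complex.I := by
    push_cast
    ring
  rw [h2, Complex.exp_ofReal_mul_I_re]

theorem co_zero : co (0 : ZMod m) = 1 := by
  rw [co_val]
  simp

theorem co_one (hm : 3 ≤ m) : co (1 : ZMod m) = Real.cos (2 * Real.pi / m) := by
  rw [co_val]
  have : Fact (1 < m) := ⟨by omega⟩
  rw [ZMod.val_one]
  simp

theorem half_le (hm : 6 ≤ m) : (1 : ℝ) / 2 ≤ co (1 : ZMod m) := by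
  rw [co_one (by omega), ← Real.cos_pi_div_three]
  have hm' : (6 : ℝ) ≤ m := by exact_mod_cast hm
  apply Real.cos_le_cos_of_nonneg_of_le_pi
  · positivity
  · linarith [Real.pi_pos]
  · rw [div_le_iff₀ (by linarith)]
    nlinarith [Real.pi_pos]

theorem lt_one (hm : 3 ≤ m) : co (1 : ZMod m) < 1 := by
  rw [co_one hm, ← Real.cos_zero]
  have hm' : (3 : ℝ) ≤ m := by exact_mod_cast hm
  apply Real.cos_lt_cos_of_nonneg_of_le_pi le_rfl
  · rw [div_le_iff₀ (by linarith)]
    nlinarith [Real.pi_pos]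
  · positivity

theorem co_le (hm : 3 ≤ m) (k : ZMod m) (hk : k ≠ 0) : co k ≤ co (1 : ZMod m) := by
  have hm' : (3 : ℝ) ≤ m := by exact_mod_cast hm
  have hpi := Real.pi_pos
  have hlt := ZMod.val_lt k
  have h0 : 1 ≤ k.val := Nat.one_le_iff_ne_zero.2 (by rwa [Ne, ZMod.val_eq_zero])
  rw [co_one hm, co_val]
  have key : ∀ v : ℕ, 1 ≤ v → 2 * v ≤ m →
      Real.cos (2 * Real.pi * (v : ℝ) / m) ≤ Real.cos (2 * Real.pi / m) := by
    intro v hv1 hv2
    have hv1' : (1 : ℝ) ≤ v := by exact_mod_cast hv1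
    have hv2' : 2 * (v : ℝ) ≤ m := by exact_mod_cast hv2
    apply Real.cos_le_cos_of_nonneg_of_le_pi
    · positivity
    · rw [div_le_iff₀ (by linarith)]
      nlinarith
    · apply div_le_div_of_nonneg_right _ (by linarith)
      nlinarith
  rcases Nat.lt_or_ge m (2 * k.val) with h | h
  · have h2 := key (m - k.val) (by omega) (by omega)
    have h3 : Real.cos (2 * Real.pi * (k.val : ℝ) / m) =
        Real.cos (2 * Real.pi * ((m - k.val : ℕ) : ℝ) / m) := by
      rw [← Real.cos_two_pi_sub]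
      congr 1
      rw [Nat.cast_sub hlt.le]
      field_simp
    rw [h3]
    exact h2
  · exact key _ h0 h

/-- position of a letter -/
def pos (x : CPerm m 2) (a : Fin 2) : Fin 2 := x.2.symm a

/-- difference of the colours of the two letters -/
def dif (x : CPerm m 2) : ZMod m := x.1 (x.2.symm 0) - x.1 (x.2.symm 1)

/-- the eigenfunction -/
noncomputable def fe (x : CPerm m 2) : ℝ := co (dif x)

theorem perm_cases (e : Equiv.Perm (Fin 2)) : e = 1 ∨ e = Equiv.swap 0 1 := by
  revert e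
  decide

omit [NeZero m] in
theorem dif_rev1 (ε : ZMod m) (x : CPerm m 2) : dif (prefixRev 1 ε x) = dif x := by
  obtain ⟨χ, ψ⟩ := x
  unfold dif
  rw [snd_rev1]
  rcases perm_cases ψ with rfl | rfl
  · have h1 : ((Equiv.swap (0 : Fin 2) 1).trans (1 : Equiv.Perm (Fin 2))).symm 0 = 1 := by
      decide
    have h2 : ((Equiv.swap (0 : Fin 2) 1).trans (1 : Equiv.Perm (Fin 2))).symm 1 = 0 := by
      decide
    have h3 : (1 : Equiv.Perm (Fin 2)).symm 0 = 0 := rfl
    have h4 : (1 : Equiv.Perm (Fin 2)).symm 1 = 1 := rfl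
    simp only [h1, h2, h3, h4, fst_rev1_0, fst_rev1_1]
    ring
  · have h1 : ((Equiv.swap (0 : Fin 2) 1).trans (Equiv.swap 0 1)).symm 0 = 0 := by decide
    have h2 : ((Equiv.swap (0 : Fin 2) 1).trans (Equiv.swap 0 1)).symm 1 = 1 := by decide
    have h3 : (Equiv.swap (0 : Fin 2) 1).symm 0 = 1 := by decide
    have h4 : (Equiv.swap (0 : Fin 2) 1).symm 1 = 0 := by decide
    simp only [h1, h2, h3, h4, fst_rev1_0, fst_rev1_1]
    ring

omit [NeZero m] in
theorem dif_rev0 (x : CPerm m 2) :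
    (dif (prefixRev 0 1 x) = dif x + 1 ∧ dif (prefixRev 0 (-1) x) = dif x - 1) ∨
    (dif (prefixRev 0 1 x) = dif x - 1 ∧ dif (prefixRev 0 (-1) x) = dif x + 1) := by
  obtain ⟨χ, ψ⟩ := x
  unfold dif
  rw [snd_rev0, snd_rev0]
  rcases perm_cases ψ with rfl | rfl
  · left
    have h1 : (1 : Equiv.Perm (Fin 2)).symm 0 = 0 := rfl
    have h2 : (1 : Equiv.Perm (Fin 2)).symm 1 = 1 := rfl
    simp only [h1, h2, fst_rev0_0, fst_rev0_1]
    constructor <;> ring
  · right
    have h1 : (Equiv.swap (0 : Fin 2) 1).symm 0 = 1 := by decide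
    have h2 : (Equiv.swap (0 : Fin 2) 1).symm 1 = 0 := by decide
    simp only [h1, h2, fst_rev0_0, fst_rev0_1]
    constructor <;> ring

open Classical in
theorem eig_fe (hm : 3 ≤ m) :
    ((pancake m 2).adjMatrix ℝ) *ᵥ (fe (m := m)) = (2 + 2 * co (1 : ZMod m)) • fe (m := m) := by
  ext x
  rw [adj_mulVec hm]
  have h1 : fe (prefixRev 1 1 x) = fe x := by rw [fe, dif_rev1]; rfl
  have h2 : fe (prefixRev 1 (-1) x) = fe x := by rw [fe, dif_rev1]; rfl
  have h3 : fe (prefixRev 0 1 x) + fe (prefixRev 0 (-1) x) =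
      2 * co (1 : ZMod m) * fe x := by
    have := co_shift (dif x)
    unfold fe
    rcases dif_rev0 x with ⟨e1, e2⟩ | ⟨e1, e2⟩
    · rw [e1, e2]; linarith
    · rw [e1, e2]; linarith
  rw [h1, h2, h3]
  simp only [Pi.smul_apply, smul_eq_mul]
  ring

open Classical in
theorem eig_one (hm : 3 ≤ m) :
    ((pancake m 2).adjMatrix ℝ) *ᵥ (fun _ => (1 : ℝ)) = (4 : ℝ) • fun _ => (1 : ℝ) := by
  ext x
  rw [adj_mulVec hm]
  simp only [Pi.smul_apply, smul_eq_mul]
  norm_num

theorem card_CPerm (hm : 3 ≤ m) : 1 < Fintype.card (CPerm m 2) := by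
  simp [Fintype.card_perm, ZMod.card]
  nlinarith

open Classical in
theorem gap_P_le (hm : 6 ≤ m) (hA : ((pancake m 2).adjMatrix ℝ).IsHermitian)
    (h : 1 < Fintype.card (CPerm m 2)) : gap hA h ≤ 2 - 2 * co (1 : ZMod m) := by
  have hlt := lt_one (m := m) (by omega)
  have h0 : hA.eigenvalues₀ ⟨0, by omega⟩ ≤ 4 := by
    apply Q156.SpecGap.eig_le hA
    intro a x hx0 hx
    obtain ⟨v, -, hv⟩ := exists_max_image univ (fun v => |x v|) univ_nonempty
    have hv0 : 0 < |x v| := by
      by_contra hc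
      apply hx0
      ext w
      have := hv w (mem_univ _)
      have h2 := abs_nonneg (x w)
      exact abs_eq_zero.1 (le_antisymm (by linarith) h2)
    have h1 := congrFun hx v
    rw [adj_mulVec (by omega), Pi.smul_apply, smul_eq_mul] at h1
    have h2 : a * |x v| ≤ 4 * |x v| := by
      calc a * |x v| ≤ |a| * |x v| := mul_le_mul_of_nonneg_right (le_abs_self a) hv0.le
        _ = |a * x v| := (abs_mul _ _).symm
        _ = _ := by rw [← h1]
        _ ≤ |x (prefixRev 0 1 v)| + |x (prefixRev 0 (-1) v)| +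
            (|x (prefixRev 1 1 v)| + |x (prefixRev 1 (-1) v)|) :=
          (abs_add_le _ _).trans (add_le_add (abs_add_le _ _) (abs_add_le _ _))
        _ ≤ |x v| + |x v| + (|x v| + |x v|) := by
          have q : ∀ w, |x w| ≤ |x v| := fun w => hv w (mem_univ w)
          exact add_le_add (add_le_add (q _) (q _)) (add_le_add (q _) (q _))
        _ = 4 * |x v| := by ring
    exact le_of_mul_le_mul_right h2 hv0
  have h1 : 2 + 2 * co (1 : ZMod m) ≤ hA.eigenvalues₀ ⟨1, h⟩ := by
    apply Q156.SpecGap.le_eig1 hA h (eig_one (by omega)) (eig_fe (by omega)) (by linarith) le_rfl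
    rw [LinearIndependent.pair_iff]
    intro s t hst
    have e1 := congrFun hst ((fun _ => 0, 1) : CPerm m 2)
    have e2 := congrFun hst ((![1, 0], 1) : CPerm m 2)
    have f1 : fe ((fun _ => 0, 1) : CPerm m 2) = 1 := by
      rw [fe, dif, sub_self, co_zero]
    have f2 : fe ((![1, 0], 1) : CPerm m 2) = co (1 : ZMod m) := by
      rw [fe, dif]
      congr 1
      show (1 : ZMod m) - 0 = 1
      ring
    simp only [Pi.add_apply, Pi.smul_apply, smul_eq_mul, Pi.zero_apply, f1, f2, mul_one] at e1 e2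
    have : t * (1 - co (1 : ZMod m)) = 0 := by linarith
    have ht : t = 0 := by
      rcases mul_eq_zero.1 this with h | h
      · exact h
      · linarith
    exact ⟨by linarith, ht⟩
  unfold gap
  linarith

/-! ### The quotient -/

/-- neighbours in the cycle of colours -/
def T (i i' : ZMod m) : ℝ := (if i' = i + 1 then 1 else 0) + if i' = i - 1 then 1 else 0

/-- the quotient matrix -/
def Q : Matrix (ZMod m × Fin 2) (ZMod m × Fin 2) ℝ := Matrix.of fun a b =>
  if a.2 = 1 ∧ b.2 = 1 then (if a.1 = b.1 then 2 else 0) else T a.1 b.1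

omit [NeZero m] in
theorem Q_symm : (Q (m := m)).IsHermitian := by
  ext a b
  simp only [Q, conjTranspose_apply, of_apply, star_trivial]
  have hT : T b.1 a.1 = T a.1 b.1 := by
    unfold T
    have e1 : (a.1 = b.1 + 1) ↔ (b.1 = a.1 - 1) :=
      ⟨fun h => by rw [h]; ring, fun h => by rw [h]; ring⟩
    have e2 : (a.1 = b.1 - 1) ↔ (b.1 = a.1 + 1) :=
      ⟨fun h => by rw [h]; ring, fun h => by rw [h]; ring⟩
    simp only [e1, e2]
    rw [add_comm]
  rw [hT]
  by_cases h : a.2 = 1 ∧ b.2 = 1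
  · rw [if_pos h, if_pos ⟨h.2, h.1⟩]
    simp only [eq_comm]
  · rw [if_neg h, if_neg (fun h' => h ⟨h'.2, h'.1⟩)]

omit [NeZero m] in
open Classical in
theorem ncard_eq (hm : 3 ≤ m) (x : CPerm m 2) (p : CPerm m 2 → Prop) :
    (({y | (pancake m 2).Adj x y ∧ p y} : Set (CPerm m 2)).ncard : ℝ) =
      (if p (prefixRev 0 1 x) then 1 else 0) + (if p (prefixRev 0 (-1) x) then 1 else 0) +
      ((if p (prefixRev 1 1 x) then 1 else 0) + if p (prefixRev 1 (-1) x) then 1 else 0) := by
  have h : ({y | (pancake m 2).Adj x y ∧ p y} : Set (CPerm m 2)) =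
      (((univ.filter fun i => p (nb x i)).image (nb x) : Finset (CPerm m 2)) :
        Set (CPerm m 2)) := by
    ext y
    simp only [Set.mem_ofPred_eq, coe_image, coe_filter, mem_univ, true_and, Set.mem_image]
    rw [adj_iff hm]
    constructor
    · rintro ⟨⟨i, rfl⟩, h2⟩
      exact ⟨i, h2, rfl⟩
    · rintro ⟨i, h1, rfl⟩
      exact ⟨⟨i, rfl⟩, h1⟩
  rw [h, Set.ncard_coe_finset, card_image_of_injective _ (nb_inj hm x), card_filter]
  push_cast
  rw [Fintype.sum_prod_type]
  simp [nb, Fin.sum_univ_two]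

omit [NeZero m] in
theorem isQuotient (hm : 3 ≤ m) : IsQuotient (Q (m := m)) := by
  classical
  rintro ⟨i, j⟩ ⟨i', j'⟩ ⟨χ, ψ⟩ ⟨h1, h2⟩
  rw [ncard_eq hm]
  simp only [InClass, snd_rev0, snd_rev1] at h1 h2 ⊢
  subst h2
  rcases perm_cases ψ with rfl | rfl
  · have hj : j = 0 := by
      revert h1; fin_cases j <;> simp
    subst hj
    fin_cases j'
    · simp [fst_rev0_0, fst_rev1_0, Q, T, eq_comm, sub_eq_add_neg]
    · simp [fst_rev0_1, fst_rev1_1, Q, T, eq_comm, sub_eq_add_neg]
  · have hj : j = 1 := by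
      revert h1; fin_cases j <;> simp
    subst hj
    fin_cases j'
    · simp [fst_rev0_0, fst_rev1_0, Q, T, eq_comm, sub_eq_add_neg]
    · simp [fst_rev0_1, fst_rev1_1, Q, T, eq_comm, sub_eq_add_neg]
      split_ifs <;> norm_num

theorem Q_mulVec0 (f : ZMod m × Fin 2 → ℝ) (i : ZMod m) :
    (Q *ᵥ f) (i, 0) = f (i + 1, 0) + f (i - 1, 0) + (f (i + 1, 1) + f (i - 1, 1)) := by
  rw [mulVec, dotProduct, Fintype.sum_prod_type]
  simp only [Fin.sum_univ_two, Q, of_apply, T]
  simp [add_mul, sum_add_distrib]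

theorem Q_mulVec1 (f : ZMod m × Fin 2 → ℝ) (i : ZMod m) :
    (Q *ᵥ f) (i, 1) = f (i + 1, 0) + f (i - 1, 0) + 2 * f (i, 1) := by
  rw [mulVec, dotProduct, Fintype.sum_prod_type]
  simp only [Fin.sum_univ_two, Q, of_apply, T]
  simp [add_mul, sum_add_distrib]

theorem Q_one : (Q (m := m)) *ᵥ (fun _ => (1 : ℝ)) = (4 : ℝ) • fun _ => (1 : ℝ) := by
  ext ⟨i, j⟩
  fin_cases j
  · simp only [Fin.zero_eta, Q_mulVec0, Pi.smul_apply, smul_eq_mul]
    norm_num
  · simp only [Fin.mk_one, Q_mulVec1, Pi.smul_apply, smul_eq_mul]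
    norm_num

open ZMod in
theorem dft_shift (g : ZMod m → ℂ) (k : ZMod m) :
    𝓕 (fun c => g (c + 1)) k + 𝓕 (fun c => g (c - 1)) k = 2 * (co k : ℂ) * 𝓕 g k := by
  have h1 : 𝓕 (fun c => g (c + 1)) k = stdAddChar k * 𝓕 g k := by
    rw [dft_apply, dft_apply, mul_sum]
    rw [← Equiv.sum_comp (Equiv.addRight (1 : ZMod m)) fun j =>
      stdAddChar k * stdAddChar (-(j * k)) • g j]
    apply sum_congr rfl
    intro c _
    simp only [Equiv.coe_addRight, smul_eq_mul]
    rw [← mul_assoc, ← AddChar.map_add_eq_mul]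
    congr 2
    ring
  have h2 : 𝓕 (fun c => g (c - 1)) k = stdAddChar (-k) * 𝓕 g k := by
    rw [dft_apply, dft_apply, mul_sum]
    rw [← Equiv.sum_comp (Equiv.subRight (1 : ZMod m)) fun j =>
      stdAddChar (-k) * stdAddChar (-(j * k)) • g j]
    apply sum_congr rfl
    intro c _
    simp only [Equiv.subRight_apply, smul_eq_mul]
    rw [← mul_assoc, ← AddChar.map_add_eq_mul]
    congr 2
    ring
  rw [h1, h2, ← add_mul, char_sum]

/-- the polynomial inequality -/
theorem poly_pos {c0 c a : ℝ} (h0 : 1 / 2 ≤ c0) (h1 : c0 < 1) (hc : c ≤ c0) (hc1 : -1 ≤ c)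
    (ha : 2 + 2 * c0 ≤ a) : 0 < (a - 2 * c) * (a - 2) - 4 * c ^ 2 := by
  have e : 0 < 4 * ((1 + c0) * (c0 - c) + c - c ^ 2) := by
    nlinarith [mul_nonneg (sub_nonneg.2 hc) (by linarith : 0 ≤ 1 + c),
      mul_nonneg (by linarith : 0 ≤ 1 + c) (by linarith : 0 ≤ 1 - c)]
  have e2 : 0 ≤ (a - (2 + 2 * c0)) * (a + (2 + 2 * c0) - 2 - 2 * c) :=
    mul_nonneg (by linarith) (by linarith)
  nlinarith

theorem co_ge (k : ZMod m) : -1 ≤ co k := by
  rw [co_val]
  exact Real.neg_one_le_cos _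

open ZMod in
theorem Q_eig (hm : 6 ≤ m) (a : ℝ) (x : ZMod m × Fin 2 → ℝ)
    (ha : 2 + 2 * co (1 : ZMod m) ≤ a) (hx : Q *ᵥ x = a • x) : ∃ s : ℝ, x = s • fun _ => (1 : ℝ) := by
  have hhalf := half_le hm
  have hlt := lt_one (m := m) (by omega)
  obtain ⟨g0, hg0⟩ : ∃ g0 : ZMod m → ℂ, g0 = fun c => (x (c, 0) : ℂ) := ⟨_, rfl⟩
  obtain ⟨g1, hg1⟩ : ∃ g1 : ZMod m → ℂ, g1 = fun c => (x (c, 1) : ℂ) := ⟨_, rfl⟩
  have e0 : (a : ℂ) • g0 = (fun c => g0 (c + 1)) + (fun c => g0 (c - 1)) +
      ((fun c => g1 (c + 1)) + fun c => g1 (c - 1)) := by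
    ext c
    have h := congrFun hx (c, 0)
    rw [Q_mulVec0, Pi.smul_apply, smul_eq_mul] at h
    simp only [hg0, hg1, Pi.smul_apply, Pi.add_apply, smul_eq_mul]
    rw [← Complex.ofReal_mul, ← h]
    push_cast
    ring
  have e1 : (a : ℂ) • g1 = (fun c => g0 (c + 1)) + (fun c => g0 (c - 1)) + (2 : ℂ) • g1 := by
    ext c
    have h := congrFun hx (c, 1)
    rw [Q_mulVec1, Pi.smul_apply, smul_eq_mul] at h
    simp only [hg0, hg1, Pi.smul_apply, Pi.add_apply, smul_eq_mul]
    rw [← Complex.ofReal_mul, ← h]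
    push_cast
    ring
  have f0 : ∀ k, (a : ℂ) * 𝓕 g0 k = 2 * (co k : ℂ) * 𝓕 g0 k + 2 * (co k : ℂ) * 𝓕 g1 k := by
    intro k
    have h := congrArg (fun G => 𝓕 G k) e0
    simp only [_root_.map_smul, map_add, Pi.smul_apply, Pi.add_apply, smul_eq_mul] at h
    rw [h, dft_shift, dft_shift]
  have f1 : ∀ k, (a : ℂ) * 𝓕 g1 k = 2 * (co k : ℂ) * 𝓕 g0 k + 2 * 𝓕 g1 k := by
    intro k
    have h := congrArg (fun G => 𝓕 G k) e1
    simp only [_root_.map_smul, map_add, Pi.smul_apply, Pi.add_apply, smul_eq_mul] at h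
    rw [h, dft_shift]
  have hz : ∀ k, k ≠ 0 → 𝓕 g0 k = 0 ∧ 𝓕 g1 k = 0 := by
    intro k hk
    have hp := poly_pos hhalf hlt (co_le (by omega) k hk) (co_ge k) ha
    have hp' : (((a - 2 * co k) * (a - 2) - 4 * co k ^ 2 : ℝ) : ℂ) ≠ 0 := by
      exact_mod_cast hp.ne'
    have r0 := f0 k
    have r1 := f1 k
    constructor
    · have : (((a - 2 * co k) * (a - 2) - 4 * co k ^ 2 : ℝ) : ℂ) * 𝓕 g0 k = 0 := by
        push_cast
        linear_combination ((a : ℂ) - 2) * r0 + 2 * (co k : ℂ) * r1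
      exact (mul_eq_zero.1 this).resolve_left hp'
    · have : (((a - 2 * co k) * (a - 2) - 4 * co k ^ 2 : ℝ) : ℂ) * 𝓕 g1 k = 0 := by
        push_cast
        linear_combination ((a : ℂ) - 2 * co k) * r1 + 2 * (co k : ℂ) * r0
      exact (mul_eq_zero.1 this).resolve_left hp'
  have hg : g0 = g1 := by
    apply (dft (N := m) (E := ℂ)).injective
    ext k
    by_cases hk : k = 0
    · subst hk
      have r0 := f0 0
      have r1 := f1 0
      rw [co_zero] at r0 r1
      have ha0 : (a : ℂ) ≠ 0 := by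
        have : a ≠ 0 := by linarith
        exact_mod_cast this
      have : (a : ℂ) * (𝓕 g0 0 - 𝓕 g1 0) = 0 := by
        push_cast at r0 r1
        linear_combination r0 - r1
      exact sub_eq_zero.1 ((mul_eq_zero.1 this).resolve_left ha0)
    · rw [(hz k hk).1, (hz k hk).2]
  have hconst : ∀ c, g0 c = g0 0 := by
    intro c
    have h : ∀ c, g0 c = (m : ℂ)⁻¹ • 𝓕 (𝓕 g0) (-c) := by
      intro c
      rw [dft_dft]
      simp only [neg_neg, smul_eq_mul]
      rw [← mul_assoc, inv_mul_cancel₀ (by exact_mod_cast NeZero.ne m), one_mul]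
    have h2 : ∀ c, 𝓕 (𝓕 g0) c = 𝓕 g0 0 := by
      intro c
      rw [dft_apply, sum_eq_single (0 : ZMod m)]
      · simp
      · intro b _ hb
        rw [(hz b hb).1, smul_zero]
      · intro h
        exact absurd (mem_univ _) h
    rw [h c, h 0, h2, h2]
  refine ⟨x (0, 0), ?_⟩
  ext ⟨c, j⟩
  simp only [Pi.smul_apply, smul_eq_mul, mul_one]
  have hc := hconst c
  have hc2 : g0 c = g1 c := by rw [hg]
  fin_cases j
  · simp only [Fin.zero_eta]
    rw [hg0] at hc
    exact Complex.ofReal_injective hc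
  · simp only [Fin.mk_one]
    rw [hc, hg1, hg0] at hc2
    exact (Complex.ofReal_injective hc2).symm

theorem gap_Q_gt (hm : 6 ≤ m) (h : 1 < Fintype.card (ZMod m × Fin 2)) :
    2 - 2 * co (1 : ZMod m) < gap (Q_symm (m := m)) h := by
  have h0 : 4 ≤ (Q_symm (m := m)).eigenvalues₀ ⟨0, by omega⟩ := by
    apply Q156.SpecGap.le_eig0 (Q_symm (m := m)) (by omega) (x := fun _ => (1 : ℝ)) _ Q_one
    intro h
    have := congrFun h (0, 0)
    simp at this
  have h1 : (Q_symm (m := m)).eigenvalues₀ ⟨1, h⟩ < 2 + 2 * co (1 : ZMod m) :=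
    Q156.SpecGap.eig1_lt (Q_symm (m := m)) h _ (fun _ => (1 : ℝ)) (fun a x ha hx =>
      Q_eig hm a x ha hx)
  unfold gap
  linarith

end

open Classical in
/-- For `n = 2` and every `m ≥ 6` the quotient matrix `Q` of the partition exists and is symmetric,
and the gap of the generalised pancake graph is smaller than the gap of `Q`. -/
theorem result (m : ℕ) [NeZero m] (hm : 6 ≤ m) :
    ∃ (Q : Matrix (ZMod m × Fin 2) (ZMod m × Fin 2) ℝ) (hQ : Q.IsHermitian)
      (hP : ((pancake m 2).adjMatrix ℝ).IsHermitian)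
      (h1 : 1 < Fintype.card (ZMod m × Fin 2)) (h2 : 1 < Fintype.card (CPerm m 2)),
      IsQuotient Q ∧ gap hP h2 < gap hQ h1 := by
  have h1 : 1 < Fintype.card (ZMod m × Fin 2) := by
    simp [ZMod.card]
    omega
  have h2 : 1 < Fintype.card (CPerm m 2) := card_CPerm (by omega)
  have hP : ((pancake m 2).adjMatrix ℝ).IsHermitian := by
    rw [Matrix.IsHermitian, conjTranspose_eq_transpose_of_trivial,
      SimpleGraph.transpose_adjMatrix]
  exact ⟨Q, Q_symm, hP, h1, h2, isQuotient (by omega),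
    lt_of_le_of_lt (gap_P_le hm hP h2) (gap_Q_gt hm h1)⟩

end Pool.Agent.Results.MP_ad1e8a_co.GapSmaller
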